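import Pool.Agent.helper17.RX.Spec

/-!
# Project RX, row SNX: the expected number of bad sites with explicit constants (adapted from `Pool/Agent/helper71/TH/SUG.lean`)
-/

set_option autoImplicit false

namespace TP.TW

open DP MeasureTheory Finset

lemma SNX_box (D : Finset V) (τ : ℤ × ℤ) (R : ℕ) (w : V) :
    #(D.filter fun v => sd (v.1 + τ.1, v.2 + τ.2) w ≤ R) ≤ (2 * R + 1) ^ 2 := by
  have h : #(D.filter fun v => sd (v.1 + τ.1, v.2 + τ.2) w ≤ R) ≤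
      #(Icc (w.1 - R) (w.1 + R) ×ˢ Icc (w.2 - R) (w.2 + R)) := by
    refine card_le_card_of_injOn (fun v => (v.1 + τ.1, v.2 + τ.2)) ?_ ?_
    · intro v hv
      have h1 := (mem_filter.mp (mem_coe.mp hv)).2
      unfold sd at h1
      rw [max_le_iff] at h1
      obtain ⟨h2, h3⟩ := h1
      simp only at h2 h3
      rw [mem_coe, mem_product, mem_Icc, mem_Icc]
      refine ⟨⟨?_, ?_⟩, ?_, ?_⟩ <;> simp only <;> omega
    · intro v _ v' _ he
      simp only [Prod.mk.injEq] at he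
      obtain ⟨h2, h3⟩ := he
      refine Prod.ext ?_ ?_ <;> omega
  refine h.trans (le_of_eq ?_)
  rw [card_product, Int.card_Icc, Int.card_Icc]
  have e1 : (w.1 + (R : ℤ) + 1 - (w.1 - R)).toNat = 2 * R + 1 := by omega
  have e2 : (w.2 + (R : ℤ) + 1 - (w.2 - R)).toNat = 2 * R + 1 := by omega
  rw [e1, e2]
  ring

lemma SNX_dw (D S : Finset V) (τ : ℤ × ℤ) (R : ℕ) (p : V → ℝ) (hp : ∀ v ∈ S, 0 ≤ p v) :
    ∑ v₀ ∈ D, ∑ w ∈ S.filter (fun w => sd (v₀.1 + τ.1, v₀.2 + τ.2) w ≤ R), p w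
      ≤ (((2 * R + 1) ^ 2 : ℕ) : ℝ) * ∑ w ∈ S, p w := by
  simp_rw [sum_filter]
  rw [sum_comm, mul_sum]
  refine sum_le_sum ?_
  intro w hw
  rw [← sum_filter, sum_const, nsmul_eq_mul]
  refine mul_le_mul_of_nonneg_right ?_ (hp w hw)
  exact_mod_cast SNX_box D τ R w

lemma SNX_log (n : ℕ) (hn : 2 ≤ n) : (1 : ℝ) ≤ 2 * Real.log n ∧
    ((Nat.log 2 n + 1 : ℕ) : ℝ) ≤ 4 * Real.log n := by
  have hl2 : (1 : ℝ) / 2 < Real.log 2 := by
    have := Real.log_two_gt_d9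
    linarith
  have hn' : (2 : ℝ) ≤ n := by exact_mod_cast hn
  have h1 : Real.log 2 ≤ Real.log n := Real.log_le_log (by norm_num) hn'
  have h2 : (Nat.log 2 n : ℝ) * Real.log 2 ≤ Real.log n := by
    rw [← Real.log_pow]
    refine Real.log_le_log (by positivity) ?_
    exact_mod_cast Nat.pow_log_le_self 2 (by omega)
  have h3 : (0 : ℝ) ≤ (Nat.log 2 n : ℝ) := Nat.cast_nonneg _
  refine ⟨by linarith, ?_⟩
  push_cast
  nlinarith

lemma SNX_logt (n s : ℕ) (hn : 2 ≤ n) (hs : s ∈ range (Nat.log 2 n + 1)) :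
    Real.log (((2 ^ s : ℕ) : ℝ) + 2) ≤ 2 * Real.log n := by
  have hs' : s ≤ Nat.log 2 n := by
    have := mem_range.mp hs
    omega
  have h1 : 2 ^ s ≤ n :=
    (Nat.pow_le_pow_right (by norm_num) hs').trans (Nat.pow_log_le_self 2 (by omega))
  have h2 : 2 ^ s + 2 ≤ n ^ 2 := by nlinarith
  have h3 : (((2 ^ s : ℕ) : ℝ) + 2) ≤ (n : ℝ) ^ 2 := by exact_mod_cast h2
  have h4 : Real.log (((2 ^ s : ℕ) : ℝ) + 2) ≤ Real.log ((n : ℝ) ^ 2) :=
    Real.log_le_log (by positivity) h3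
  rwa [Real.log_pow] at h4

lemma SNX_log4 (n : ℕ) (hn : 2 ≤ n) : Real.log 4 ≤ 2 * Real.log n := by
  have hn' : (2 : ℝ) ≤ n := by exact_mod_cast hn
  have h1 : Real.log 2 ≤ Real.log n := Real.log_le_log (by norm_num) hn'
  have h2 : Real.log 4 = 2 * Real.log 2 := by
    rw [show (4 : ℝ) = 2 ^ 2 by norm_num, Real.log_pow]
    norm_num
  linarith

lemma SNX_prob : IsProbabilityMeasure DP.P1 := by
  unfold DP.P1
  infer_instance

lemma SNX_one : Pr (Set.univ : Set (V → Bool)) = 1 := by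
  have := SNX_prob
  unfold DP.Pr
  exact probReal_univ

lemma SNX_mem (S : (V → Bool) → Finset V) (Ω : Finset V) (w : V → ℝ) (R : ℕ) (K : ℝ)
    (h : RS S Ω w R K) (v : V) : Pr {β | v ∈ S β} ≤ K * Real.log 4 ^ R * w v := by
  obtain ⟨_, _, _, _, _, _, hD⟩ := h
  have h1 := hD {(0, 0)} {v} ∅ v Set.univ (fun _ _ _ => Iff.rfl) (by
    intro u hu τ hτ
    rw [mem_singleton] at hτ
    rw [insert_empty_eq, mem_singleton] at hu
    subst hτ
    subst hu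
    simp)
  rw [sum_singleton, sum_singleton, SNX_one] at h1
  simp only [sub_zero, add_zero, Prod.mk.eta, Set.univ_inter, mul_one, div_one, Real.log_one,
    zero_add, card_singleton, card_empty, Nat.cast_one, Nat.cast_zero] at h1
  have e : (1 : ℝ) + 3 = 4 := by norm_num
  rw [e] at h1
  exact h1

theorem SNX (cv : CV_stmt) (spx : SPX_stmt) : SNX_stmt := by
  have hprob := SNX_prob
  obtain ⟨C₀, hC₀1, hSPG⟩ := spx
  have hC₀ : 0 < C₀ := by linarith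
  refine ⟨2 * 401 ^ 2 + 4 * (2 * 801 ^ 2) * (81 * C₀), by nlinarith, ?_⟩
  intro R n S Ω w K hn hΩ hRS
  obtain ⟨hR1, hR2, hR3, hw0, hw1, hK, hD⟩ := id hRS
  set D : Finset V := (univ : Finset (Fin n × Fin n)).image phi with hDD
  set I : Finset (ℕ × Bool × ℤ × ℤ) := range (Nat.log 2 n + 1) ×ˢ (univ : Finset Bool) ×ˢ
    Icc (-400 : ℤ) 400 ×ˢ Icc (-400 : ℤ) 400 with hI
  have hIc : (#I : ℝ) = ((Nat.log 2 n + 1 : ℕ) : ℝ) * (2 * 801 ^ 2) := by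
    have e0 : ((400 : ℤ) + 1 - (-400)).toNat = 801 := by decide
    rw [hI, card_product, card_product, card_product, card_range, Int.card_Icc, e0, card_univ,
      Fintype.card_bool]
    push_cast
    ring
  obtain ⟨hlog1, hlog2⟩ := SNX_log n hn
  have hl0 : 0 ≤ Real.log n := by linarith
  have hR0 : (0 : ℝ) ≤ (R : ℝ) := Nat.cast_nonneg _
  set A : ℝ := ((R : ℝ) + 1) * Real.log n with hA
  have hA0 : 0 ≤ A := by positivity
  have hlA : Real.log n ≤ A := by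
    rw [hA]
    nlinarith
  have hSD : ∀ β, S β ⊆ D := fun β => (hR2 β).trans hΩ
  have h1 : ∀ v₀ ∈ D, Pr {β | BAD (col β) (S β) v₀} ≤
      ∑ v ∈ Ω.filter (fun v => sd v₀ v ≤ 200), K * Real.log 4 ^ R * w v +
      ∑ i ∈ I, C₀ * K * (C₀ * (((R : ℝ) + 1) * Real.log (((2 ^ i.1 : ℕ) : ℝ) + 2))) ^ R *
        (∑ v ∈ Ω.filter (fun v => sd (v₀.1 + 2 ^ i.1 * i.2.2.1, v₀.2 + 2 ^ i.1 * i.2.2.2) v
          ≤ 4 * 2 ^ i.1), w v) / (((2 ^ i.1 : ℕ) : ℝ)) ^ 2 := by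
    intro v₀ hv₀
    have hsub : {β | BAD (col β) (S β) v₀} ⊆
        (⋃ v ∈ Ω.filter (fun v => sd v₀ v ≤ 200), {β | v ∈ S β}) ∪
        ⋃ i ∈ I, {β | SR (col β) i.2.1 (S β)
          (v₀.1 + 2 ^ i.1 * i.2.2.1, v₀.2 + 2 ^ i.1 * i.2.2.2) (2 ^ i.1)} := by
      intro β hβ
      have hβ' : BAD (col β) (S β) v₀ := hβ
      rcases cv n (col β) (S β) v₀ hn (hSD β) hv₀ hβ' with ⟨v, hv, hsw⟩ | ⟨s, hs, k, p, hp, q, hq, hSR⟩
      · left
        rw [Set.mem_iUnion₂]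
        exact ⟨v, mem_filter.mpr ⟨hR2 β hv, hsw⟩, hv⟩
      · right
        rw [Set.mem_iUnion₂]
        refine ⟨(s, k, p, q), ?_, hSR⟩
        rw [hI, mem_product, mem_product, mem_product]
        exact ⟨hs, mem_univ _, hp, hq⟩
    have h6 : Pr {β | BAD (col β) (S β) v₀} ≤
        ∑ v ∈ Ω.filter (fun v => sd v₀ v ≤ 200), Pr {β | v ∈ S β} +
        ∑ i ∈ I, Pr {β | SR (col β) i.2.1 (S β)
          (v₀.1 + 2 ^ i.1 * i.2.2.1, v₀.2 + 2 ^ i.1 * i.2.2.2) (2 ^ i.1)} := by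
      unfold DP.Pr
      refine (measureReal_mono hsub (measure_ne_top _ _)).trans ?_
      refine (measureReal_union_le _ _).trans (add_le_add ?_ ?_)
      · exact measureReal_biUnion_finset_le _ _
      · exact measureReal_biUnion_finset_le I _
    refine h6.trans (add_le_add ?_ ?_)
    · exact sum_le_sum fun v _ => SNX_mem S Ω w R K hRS v
    · exact sum_le_sum fun i _ => hSPG R S Ω w K i.2.1 _ (2 ^ i.1) Nat.one_le_two_pow hRS
  set W : ℝ := ∑ v ∈ Ω, w v with hW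
  have hW0 : 0 ≤ W := sum_nonneg fun v _ => hw0 v
  set L : ℝ := K * (2 * C₀ * A) ^ R * W with hL
  have hL0 : 0 ≤ L := by positivity
  have hp4 : Real.log 4 ^ R ≤ (2 * C₀ * A) ^ R := by
    refine pow_le_pow_left₀ (Real.log_nonneg (by norm_num)) ((SNX_log4 n hn).trans ?_) R
    have h2 : 1 * A ≤ C₀ * A := mul_le_mul_of_nonneg_right hC₀1 hA0
    linarith
  have h9 : ∑ v₀ ∈ D, ∑ v ∈ Ω.filter (fun v => sd v₀ v ≤ 200), K * Real.log 4 ^ R * w v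
      ≤ 401 ^ 2 * L := by
    have h11 := SNX_dw D Ω (0, 0) 200 w (fun v _ => hw0 v)
    simp only [add_zero] at h11
    have e1 : (((2 * 200 + 1) ^ 2 : ℕ) : ℝ) = 401 ^ 2 := by norm_num
    rw [e1] at h11
    simp_rw [← mul_sum]
    have h12 : K * Real.log 4 ^ R * ∑ v₀ ∈ D, ∑ v ∈ Ω.filter (fun v => sd v₀ v ≤ 200), w v ≤
        K * Real.log 4 ^ R * (401 ^ 2 * W) := by
      refine mul_le_mul_of_nonneg_left h11 ?_
      have := Real.log_nonneg (show (1 : ℝ) ≤ 4 by norm_num)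
      positivity
    have h13 : K * Real.log 4 ^ R * (401 ^ 2 * W) ≤ K * (2 * C₀ * A) ^ R * (401 ^ 2 * W) := by
      refine mul_le_mul_of_nonneg_right ?_ (by positivity)
      exact mul_le_mul_of_nonneg_left hp4 hK
    refine (h12.trans h13).trans (le_of_eq ?_)
    rw [hL]
    ring
  have h12 : ∀ i ∈ I, ∑ v₀ ∈ D, C₀ * K *
        (C₀ * (((R : ℝ) + 1) * Real.log (((2 ^ i.1 : ℕ) : ℝ) + 2))) ^ R *
        (∑ v ∈ Ω.filter (fun v => sd (v₀.1 + 2 ^ i.1 * i.2.2.1, v₀.2 + 2 ^ i.1 * i.2.2.2) v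
          ≤ 4 * 2 ^ i.1), w v) / (((2 ^ i.1 : ℕ) : ℝ)) ^ 2
      ≤ 81 * C₀ * L := by
    intro i hi
    have his : i.1 ∈ range (Nat.log 2 n + 1) := by
      rw [hI, mem_product] at hi
      exact hi.1
    have h13 := SNX_dw D Ω (2 ^ i.1 * i.2.2.1, 2 ^ i.1 * i.2.2.2) (4 * 2 ^ i.1) w (fun v _ => hw0 v)
    simp only at h13
    have h14 : (2 * (4 * 2 ^ i.1) + 1) ^ 2 ≤ 81 * (2 ^ i.1) ^ 2 := by
      have h15 : 1 ≤ 2 ^ i.1 := Nat.one_le_two_pow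
      nlinarith
    have h15 : (((2 * (4 * 2 ^ i.1) + 1) ^ 2 : ℕ) : ℝ) ≤ 81 * (((2 ^ i.1 : ℕ) : ℝ)) ^ 2 := by
      exact_mod_cast h14
    have hlt0 : 0 ≤ Real.log (((2 ^ i.1 : ℕ) : ℝ) + 2) := by
      refine Real.log_nonneg ?_
      have : (0 : ℝ) ≤ ((2 ^ i.1 : ℕ) : ℝ) := Nat.cast_nonneg _
      linarith
    have hpl : (C₀ * (((R : ℝ) + 1) * Real.log (((2 ^ i.1 : ℕ) : ℝ) + 2))) ^ R ≤
        (2 * C₀ * A) ^ R := by
      refine pow_le_pow_left₀ (by positivity) ?_ R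
      have h2 : ((R : ℝ) + 1) * Real.log (((2 ^ i.1 : ℕ) : ℝ) + 2) ≤
          ((R : ℝ) + 1) * (2 * Real.log n) :=
        mul_le_mul_of_nonneg_left (SNX_logt n i.1 hn his) (by positivity)
      have h3 : C₀ * (((R : ℝ) + 1) * Real.log (((2 ^ i.1 : ℕ) : ℝ) + 2)) ≤
          C₀ * (((R : ℝ) + 1) * (2 * Real.log n)) := mul_le_mul_of_nonneg_left h2 hC₀.le
      refine h3.trans (le_of_eq ?_)
      rw [hA]
      ring
    have h16 : (∑ v₀ ∈ D, ∑ v ∈ Ω.filter (fun v => sd (v₀.1 + 2 ^ i.1 * i.2.2.1,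
        v₀.2 + 2 ^ i.1 * i.2.2.2) v ≤ 4 * 2 ^ i.1), w v) ≤ 81 * (((2 ^ i.1 : ℕ) : ℝ)) ^ 2 * W :=
      h13.trans (mul_le_mul_of_nonneg_right h15 hW0)
    have hpos : (0 : ℝ) < (((2 ^ i.1 : ℕ) : ℝ)) ^ 2 := by positivity
    rw [← sum_div, ← mul_sum, div_le_iff₀ hpos]
    have h17 : C₀ * K * (C₀ * (((R : ℝ) + 1) * Real.log (((2 ^ i.1 : ℕ) : ℝ) + 2))) ^ R *
        (∑ v₀ ∈ D, ∑ v ∈ Ω.filter (fun v => sd (v₀.1 + 2 ^ i.1 * i.2.2.1,
        v₀.2 + 2 ^ i.1 * i.2.2.2) v ≤ 4 * 2 ^ i.1), w v) ≤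
        C₀ * K * (2 * C₀ * A) ^ R * (81 * (((2 ^ i.1 : ℕ) : ℝ)) ^ 2 * W) := by
      refine mul_le_mul ?_ h16 ?_ (by positivity)
      · exact mul_le_mul_of_nonneg_left hpl (by positivity)
      · exact sum_nonneg fun _ _ => sum_nonneg fun v _ => hw0 v
    refine h17.trans (le_of_eq ?_)
    rw [hL]
    ring
  have h18 : ∑ v₀ ∈ D, Pr {β | BAD (col β) (S β) v₀} ≤
      401 ^ 2 * L + #I * (81 * C₀ * L) := by
    refine (sum_le_sum h1).trans ?_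
    rw [sum_add_distrib]
    refine add_le_add h9 ?_
    rw [sum_comm]
    have h19 := sum_le_card_nsmul I _ _ h12
    rwa [nsmul_eq_mul] at h19
  refine h18.trans ?_
  rw [hIc]
  have h20 : (401 : ℝ) ^ 2 * L ≤ 2 * 401 ^ 2 * (A * L) := by
    have h24 : (401 : ℝ) ^ 2 * L * 1 ≤ 401 ^ 2 * L * (2 * Real.log n) :=
      mul_le_mul_of_nonneg_left hlog1 (by positivity)
    have h25 : (401 : ℝ) ^ 2 * L * (2 * Real.log n) ≤ 401 ^ 2 * L * (2 * A) :=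
      mul_le_mul_of_nonneg_left (by linarith) (by positivity)
    linarith
  have h21 : ((Nat.log 2 n + 1 : ℕ) : ℝ) * (2 * 801 ^ 2) * (81 * C₀ * L) ≤
      4 * (2 * 801 ^ 2) * (81 * C₀) * (A * L) := by
    have h22 : ((Nat.log 2 n + 1 : ℕ) : ℝ) * ((2 * 801 ^ 2) * (81 * C₀ * L)) ≤
        4 * A * ((2 * 801 ^ 2) * (81 * C₀ * L)) :=
      mul_le_mul_of_nonneg_right (hlog2.trans (by linarith)) (by positivity)
    linarith
  set C₁ : ℝ := 2 * 401 ^ 2 + 4 * (2 * 801 ^ 2) * (81 * C₀) with hC₁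
  have hC₁0 : 0 ≤ C₁ := by positivity
  have hCC : 2 * C₀ ≤ C₁ := by
    rw [hC₁]
    nlinarith
  have h23 : C₁ * (A * L) ≤ (C₁ * A) ^ (R + 1) * K * W := by
    have h26 : (2 * C₀ * A) ^ R ≤ (C₁ * A) ^ R :=
      pow_le_pow_left₀ (by positivity) (mul_le_mul_of_nonneg_right hCC hA0) R
    have h27 : C₁ * A * (K * W) * (2 * C₀ * A) ^ R ≤ C₁ * A * (K * W) * (C₁ * A) ^ R :=
      mul_le_mul_of_nonneg_left h26 (by positivity)
    calc C₁ * (A * L) = C₁ * A * (K * W) * (2 * C₀ * A) ^ R := by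
          rw [hL]
          ring
      _ ≤ C₁ * A * (K * W) * (C₁ * A) ^ R := h27
      _ = (C₁ * A) ^ (R + 1) * K * W := by ring
  refine le_trans ?_ h23
  have h28 : C₁ * (A * L) = 2 * 401 ^ 2 * (A * L) + 4 * (2 * 801 ^ 2) * (81 * C₀) * (A * L) := by
    rw [hC₁]
    ring
  rw [h28]
  exact add_le_add h20 h21

end TP.TW
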